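import Pool.Agent.KB.Contr

/-! The case `u = 1`: the centralizer is the whole group. -/

namespace Pool.Agent.KBZ

open Pool.Agent.KB Pool.Agent.KB.ContrAux

/-- Pulling back along an isomorphism does not change the subrepresentations. -/
def UOne_iso {G H V : Type} [Group G] [Group H] [AddCommGroup V] [Module ℂ V] (e : H ≃* G)
    (ρ : Representation ℂ G V) :
    Subrepresentation (ρ.comp e.toMonoidHom : Representation ℂ H V) ≃o Subrepresentation ρ where
  toFun S := ⟨S.toSubmodule, fun g v hv => by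
    have h := S.apply_mem_toSubmodule (e.symm g) hv
    have h2 : (ρ.comp e.toMonoidHom : Representation ℂ H V) (e.symm g) = ρ g := by
      show ρ (e (e.symm g)) = ρ g
      rw [e.apply_symm_apply]
    rw [h2] at h
    exact h⟩
  invFun S := ⟨S.toSubmodule, fun h v hv => S.apply_mem_toSubmodule (e h) hv⟩
  left_inv _ := rfl
  right_inv _ := rfl
  map_rel_iff' := Iff.rfl

theorem UOne_irr {G H : Type} [Group G] [Group H] (e : H ≃* G) {χ : G → ℂ} (hχ : χ ∈ Irr G) :
    (fun h => χ (e h)) ∈ Irr H := by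
  obtain ⟨n, ρ, hρ, rfl⟩ := hχ
  refine ⟨n, ρ.comp e.toMonoidHom, ?_, rfl⟩
  exact (OrderIso.isSimpleOrder_iff (UOne_iso e ρ)).2 hρ

theorem UOne_isConj {G H : Type} [Group G] [Group H] (e : H ≃* G) (a b : H) :
    IsConj (e a) (e b) ↔ IsConj a b := by
  constructor
  · intro h
    obtain ⟨c, hc⟩ := isConj_iff.1 h
    refine isConj_iff.2 ⟨e.symm c, ?_⟩
    apply e.injective
    rw [map_mul, map_mul, map_inv, e.apply_symm_apply, hc]
  · intro h
    obtain ⟨c, hc⟩ := isConj_iff.1 h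
    refine isConj_iff.2 ⟨e c, ?_⟩
    rw [← hc, map_mul, map_mul, map_inv]

theorem UOne_omega {G H : Type} [Group G] [Group H] (e : H ≃* G) (χ : G → ℂ) (a : H) :
    omega (fun h => χ (e h)) a = omega χ (e a) := by
  unfold omega
  have h1 : Nat.card {h : H // IsConj a h} = Nat.card {g : G // IsConj (e a) g} :=
    Nat.card_congr (e.toEquiv.subtypeEquiv fun b => (UOne_isConj e a b).symm)
  rw [h1]
  simp only [map_one]

open Classical in
theorem UOne_main {G : Type} [Group G] [Fintype G] (p : ℕ) (𝔪 : Ideal AInt)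
    (C : Subgroup G) [Fintype C] (hC : ∀ g : G, g ∈ C) (ζ₀ : C → ℂ) (hζ₀ : ζ₀ ∈ Irr C)
    (χ₀ : G → ℂ) (hχ₀ : χ₀ ∈ Irr G)
    (hind : ∀ g : G, InM 𝔪 (omega χ₀ g - (∑ h : {h : C // IsConj g (h : G)}, ζ₀ h) / ζ₀ 1)) :
    ell p (block 𝔪 χ₀) ≤ ell p (block 𝔪 ζ₀) := by
  have _ := hχ₀
  let e : C ≃* G := MulEquiv.ofBijective C.subtype
    ⟨Subtype.coe_injective, fun g => ⟨⟨g, hC g⟩, rfl⟩⟩
  have he : ∀ c : C, e c = (c : G) := fun _ => rfl
  -- the sum in `hind` is the central character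
  have hsum : ∀ c : C, (∑ h : {h : C // IsConj (c : G) (h : G)}, ζ₀ h) / ζ₀ 1 = omega ζ₀ c := by
    intro c
    unfold omega
    have h1 : ∀ h : {h : C // IsConj (c : G) (h : G)}, ζ₀ h = ζ₀ c := by
      intro h
      exact (irr_conj hζ₀ ((UOne_isConj e c h).1 h.2)).symm
    have h2 : Nat.card {h : C // IsConj c h} = Fintype.card {h : C // IsConj (c : G) (h : G)} := by
      rw [← Nat.card_eq_fintype_card]
      exact Nat.card_congr (Equiv.subtypeEquivRight fun h => (UOne_isConj e c h).symm)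
    rw [Finset.sum_congr rfl (fun h _ => h1 h), Finset.sum_const, Finset.card_univ, nsmul_eq_mul,
      h2]
  -- restriction maps the block into the block
  have hblock : ∀ ψ ∈ block 𝔪 χ₀, (fun c : C => ψ (e c)) ∈ block 𝔪 ζ₀ := by
    rintro ψ ⟨hψ, hsame⟩
    refine ⟨UOne_irr e hψ, fun c => ?_⟩
    have h1 : InM 𝔪 (omega χ₀ (c : G) - omega ζ₀ c) := by
      have := hind (c : G)
      rwa [hsum c] at this
    have h2 : InM 𝔪 (omega χ₀ (c : G) - omega ψ (c : G)) := hsame _
    have h3 := InM_sub h2 h1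
    have h4 : omega χ₀ (c : G) - omega ψ (c : G) - (omega χ₀ (c : G) - omega ζ₀ c)
        = omega ζ₀ c - omega (fun c : C => ψ (e c)) c := by
      rw [UOne_omega e ψ c, he]
      ring
    rw [h4] at h3
    exact h3
  -- the restriction map
  let L : (G → ℂ) ≃ₗ[ℂ] (C → ℂ) := LinearEquiv.funCongrLeft ℂ ℂ e.toEquiv
  have hpreg : ∀ ψ : G → ℂ, L (preg p ψ) = preg p (fun c : C => ψ (e c)) := by
    intro ψ
    funext c
    show preg p ψ (e c) = _
    unfold preg
    rw [MulEquiv.orderOf_eq e c]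
  unfold ell
  rw [← LinearEquiv.finrank_map_eq L]
  apply Submodule.finrank_mono
  rw [Submodule.map_span]
  apply Submodule.span_mono
  rintro _ ⟨_, ⟨ψ, hψ, rfl⟩, rfl⟩
  refine ⟨fun c : C => ψ (e c), hblock ψ hψ, ?_⟩
  exact (hpreg ψ).symm

end Pool.Agent.KBZ
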