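import Pool.Agent.KBL.CD
import Pool.Agent.KBL.NZ

/-! The degrees of the characters of a block and the matrix of contributions modulo `p`. -/

namespace Pool.Agent.KBZ

open Pool.Agent.KB Pool.Agent.KB.ContrAux

/-- The degree of an irreducible character divides the order of the group. Proof: for a prime `q`
larger than `|G|` all elements are `q`-regular, so `|G| = T q χ χ = χ 1 * A q χ χ`, and a rational
algebraic integer is an integer. -/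
theorem Cdeg_dvd {G : Type} [Group G] [Fintype G] (χ : G → ℂ) (hχ : χ ∈ Irr G) (n : ℕ)
    (hn : χ 1 = n) : n ∣ Nat.card G := by
  classical
  obtain ⟨q, hq1, hq⟩ := Nat.exists_infinite_primes (Nat.card G + 1)
  obtain ⟨n2, hn2, hn3⟩ := irr_deg hχ
  have hnn : n = n2 := by
    rw [hn] at hn3
    exact_mod_cast hn3
  have hn0 : (n : ℂ) ≠ 0 := by
    rw [hnn]
    exact_mod_cast hn2.ne'
  have hT : T q χ χ = (Nat.card G : ℂ) := by
    rw [← (KBL.Col_row χ χ hχ hχ).1 rfl]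
    unfold T
    rw [Finset.filter_true_of_mem]
    intro g _ hg
    have h1 : q ≤ orderOf g := Nat.le_of_dvd (orderOf_pos g) hg
    have h2 : orderOf g ≤ Nat.card G := Nat.le_of_dvd Nat.card_pos (orderOf_dvd_natCard g)
    omega
  have h1 := T_eq (p := q) hχ hχ
  rw [hT, hn] at h1
  have h2 : (((Nat.card G : ℚ) / n : ℚ) : ℂ) = A q χ χ := by
    push_cast
    rw [h1]
    field_simp
  have h3 : IsIntegral ℤ ((((Nat.card G : ℚ) / n : ℚ)) : ℂ) := by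
    rw [h2]
    exact A_integral hχ hχ
  obtain ⟨z, hz⟩ := int_of_integral h3
  have hnQ : (n : ℚ) ≠ 0 := by
    rw [hnn]
    exact_mod_cast hn2.ne'
  have h4 : (Nat.card G : ℤ) = n * z := by
    have h5 : (Nat.card G : ℚ) = n * z := by
      rw [← hz]
      field_simp
    exact_mod_cast h5
  have h6 : (n : ℤ) ∣ (Nat.card G : ℤ) := ⟨z, h4⟩
  exact_mod_cast h6

theorem Cdeg_main {G : Type} [Group G] [Fintype G] (p : ℕ) (hp : p.Prime) (𝔪 : Ideal AInt)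
    (h𝔪 : 𝔪.IsMaximal) (hp𝔪 : (p : AInt) ∈ 𝔪) (χ₀ : G → ℂ) (hχ₀ : χ₀ ∈ Irr G) :
    ∃ (n' : ℕ) (c : (G → ℂ) → ℕ) (c₀ : ℤ), ¬ p ∣ n' ∧ ¬ (p : ℤ) ∣ c₀ ∧
      (∀ ψ ∈ block 𝔪 χ₀, 0 < c ψ) ∧
      (∀ ψ ∈ block 𝔪 χ₀, (p : ℂ) ^ defect p (block 𝔪 χ₀) * ψ 1 * n' =
        (Nat.card G : ℂ) * c ψ) ∧
      (∃ ψ ∈ block 𝔪 χ₀, ¬ p ∣ c ψ) ∧
      (∀ ψ ∈ block 𝔪 χ₀, (InM 𝔪 (A p ψ χ₀) ↔ p ∣ c ψ)) ∧
      (∀ χ ∈ block 𝔪 χ₀, ∀ ψ ∈ block 𝔪 χ₀, ∀ z : ℤ,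
        (z : ℂ) = (p : ℂ) ^ defect p (block 𝔪 χ₀) / (Nat.card G : ℂ) * T p χ ψ →
        (p : ℤ) ∣ z - c₀ * c χ * c ψ) := by
  have hpP : Prime (p : ℤ) := Nat.prime_iff_prime_int.mp hp
  obtain ⟨n', c, hn', hc0, hval, hex⟩ := KBL.CDAux.setup p hp 𝔪 χ₀
  obtain ⟨M, hM1, hM2, -, hM4⟩ := Contr_main p hp 𝔪 h𝔪 hp𝔪 χ₀ hχ₀
  obtain ⟨χs, hχs, hAs⟩ := KBL.NZ_main p hp 𝔪 h𝔪 hp𝔪 χ₀ hχ₀
  set B := block 𝔪 χ₀ with hB
  set d := defect p B with hd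
  have hBIrr : ∀ χ ∈ B, χ ∈ Irr G := fun χ h => h.1
  have hGC : (Nat.card G : ℂ) ≠ 0 := by
    have : 0 < Nat.card G := Nat.card_pos
    exact_mod_cast this.ne'
  have hn'Z : ¬ (p : ℤ) ∣ (n' : ℤ) := by
    intro h
    exact hn' (by exact_mod_cast h)
  have hMT : ∀ χ ∈ B, ∀ ψ ∈ B, (M χ ψ : ℂ) =
      (p : ℂ) ^ d / (Nat.card G : ℂ) * T p χ ψ := by
    intro χ hχ ψ hψ
    exact hM1 χ hχ ψ hψ
  have hMv : ∀ χ ∈ B, ∀ ψ ∈ B, (n' : ℂ) * (M χ ψ : ℂ) = c ψ * A p χ ψ := by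
    intro χ hχ ψ hψ
    rw [hMT χ hχ ψ hψ]
    exact hval χ hχ ψ hψ
  have hMs : ∀ χ ∈ B, ∀ ψ ∈ B, M χ ψ = M ψ χ := by
    intro χ hχ ψ hψ
    have h1 := hMT χ hχ ψ hψ
    have h2 := hMT ψ hψ χ hχ
    rw [KBL.CDAux.T_symm, ← h2] at h1
    exact_mod_cast h1
  have hint : ∀ χ ∈ B, ∀ ψ ∈ B, IsIntegral ℤ (A p χ ψ) := fun χ hχ ψ hψ =>
    A_integral (hBIrr χ hχ) (hBIrr ψ hψ)
  have hself : χ₀ ∈ B := KBL.CDAux.mem_self hχ₀
  -- the degrees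
  have hdeg : ∀ ψ ∈ B, (p : ℂ) ^ d * ψ 1 * n' = (Nat.card G : ℂ) * c ψ := by
    intro ψ hψ
    have h1 := hMv ψ hψ ψ hψ
    have h2 := hMT ψ hψ ψ hψ
    have h3 := T_eq (p := p) (hBIrr ψ hψ) (hBIrr ψ hψ)
    have h4 : (M ψ ψ : ℂ) ≠ 0 := by
      have := hM4 ψ hψ
      exact_mod_cast this.ne'
    have hA0 : A p ψ ψ ≠ 0 := by
      intro h0
      rw [h3, h0, mul_zero, mul_zero] at h2
      exact h4 h2
    rw [h2, h3] at h1
    field_simp at h1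
    linear_combination h1
  -- some number is prime to `p`
  have hex' : ∃ ψ ∈ B, ¬ p ∣ c ψ := by
    rcases Nat.eq_zero_or_pos d with h0 | h0
    · refine ⟨χ₀, hself, ?_⟩
      obtain ⟨n, hn, hn1⟩ := irr_deg hχ₀
      have h1 := hdeg χ₀ hself
      rw [h0, pow_zero, one_mul, hn1] at h1
      have h2 : n * n' = Nat.card G * c χ₀ := by exact_mod_cast h1
      obtain ⟨t, ht⟩ := Cdeg_dvd χ₀ hχ₀ n hn1
      rw [ht, mul_assoc] at h2
      have h3 : n' = t * c χ₀ := Nat.eq_of_mul_eq_mul_left hn h2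
      intro h4
      exact hn' (h3 ▸ Dvd.dvd.mul_left h4 t)
    · exact hex h0
  obtain ⟨ψs, hψs, hcψs⟩ := hex'
  have hAall : ∀ ψ ∈ B, ¬ InM 𝔪 (A p χs ψ) := by
    intro ψ hψ h
    apply hAs
    have h1 := A_sub (p := p) (hBIrr χs hχs) hself hψ
    have e : A p χs χ₀ = (A p χs χ₀ - A p χs ψ) + A p χs ψ := by ring
    rw [e]
    exact InM_add h1 h
  have hcomm : ∀ ψ ∈ B, (c ψ : ℂ) * A p χs ψ = c χs * A p ψ χs := by
    intro ψ hψ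
    rw [← hMv χs hχs ψ hψ, hMs χs hχs ψ hψ, hMv ψ hψ χs hχs]
  have hcancel : ∀ ψ : G → ℂ, ¬ p ∣ c ψ → ∀ w : ℂ, IsIntegral ℤ w → InM 𝔪 ((c ψ : ℂ) * w) →
      InM 𝔪 w := by
    intro ψ hψ w hw h
    refine KBL.CDAux.InM_cancel hp hp𝔪 (n := (c ψ : ℤ)) ?_ hw ?_
    · intro h2
      exact hψ (by exact_mod_cast h2)
    · push_cast
      exact h
  have hInp : ∀ ψ : G → ℂ, p ∣ c ψ → ∀ w : ℂ, IsIntegral ℤ w → InM 𝔪 ((c ψ : ℂ) * w) := by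
    intro ψ hψ w hw
    have h2 := KBL.CDAux.InM_p (𝔪 := 𝔪) (p := p) hp𝔪 (n := (c ψ : ℤ)) (by exact_mod_cast hψ) hw
    push_cast at h2
    exact h2
  have hcχs : ¬ p ∣ c χs := by
    intro h
    apply hAall ψs hψs
    refine hcancel ψs hcψs _ (hint χs hχs ψs hψs) ?_
    rw [hcomm ψs hψs]
    exact hInp χs h _ (hint ψs hψs χs hχs)
  have hMss : ¬ (p : ℤ) ∣ M χs χs := by
    intro h
    apply hAall χs hχs
    refine hcancel χs hcχs _ (hint χs hχs χs hχs) ?_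
    rw [← hMv χs hχs χs hχs, mul_comm]
    exact KBL.CDAux.InM_p (𝔪 := 𝔪) (p := p) hp𝔪 h (isIntegral_nat n')
  have hcop : IsCoprime (p : ℤ) (c χs : ℤ) := by
    rw [hpP.coprime_iff_not_dvd]
    intro h
    exact hcχs (by exact_mod_cast h)
  obtain ⟨e, β, hβ⟩ := hcop
  have hβp : ¬ (p : ℤ) ∣ β := by
    intro h
    obtain ⟨t, ht⟩ := h
    have : (p : ℤ) ∣ 1 := by
      rw [← hβ, ht]
      exact ⟨e + t * c χs, by ring⟩
    exact hpP.not_dvd_one this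
  refine ⟨n', c, M χs χs * β ^ 2, hn', ?_, hc0, hdeg, ⟨ψs, hψs, hcψs⟩, ?_, ?_⟩
  · intro h
    rcases hpP.dvd_or_dvd h with h | h
    · exact hMss h
    · exact hβp (hpP.dvd_of_dvd_pow h)
  · intro ψ hψ
    have hsub := A_sub (p := p) (hBIrr ψ hψ) hself hχs
    constructor
    · intro h
      by_contra hcon
      apply hAall ψ hψ
      refine hcancel ψ hcon _ (hint χs hχs ψ hψ) ?_
      rw [hcomm ψ hψ]
      refine InM_mul (isIntegral_nat _) ?_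
      have e1 : A p ψ χs = A p ψ χ₀ - (A p ψ χ₀ - A p ψ χs) := by ring
      rw [e1]
      exact InM_sub h hsub
    · intro h
      have h1 : InM 𝔪 (A p ψ χs) := by
        refine hcancel χs hcχs _ (hint ψ hψ χs hχs) ?_
        rw [← hcomm ψ hψ]
        exact hInp ψ h _ (hint χs hχs ψ hψ)
      have e1 : A p ψ χ₀ = (A p ψ χ₀ - A p ψ χs) + A p ψ χs := by ring
      rw [e1]
      exact InM_add hsub h1
  · intro χ hχ ψ hψ z hz
    have hzM : z = M χ ψ := by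
      have h1 := hMT χ hχ ψ hψ
      rw [← hz] at h1
      exact_mod_cast h1.symm
    rw [hzM]
    -- the congruence
    have key : InM 𝔪 (((n' : ℤ) * ((c χs : ℤ) ^ 2 * M χ ψ - c χ * c ψ * M χs χs) : ℤ) : ℂ) := by
      have h1 := hMv χ hχ ψ hψ
      have h2 := hMv χs hχs χs hχs
      have h3 := hcomm χ hχ
      -- `h3 : c χ * A χs χ = c χs * A χ χs`
      have e1 : (((n' : ℤ) * ((c χs : ℤ) ^ 2 * M χ ψ - c χ * c ψ * M χs χs) : ℤ) : ℂ) =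
          ((c χs : ℂ) ^ 2 * c ψ) * (A p χ ψ - A p χ χs) +
            ((c χs : ℂ) * c ψ * c χ) * (A p χs χ - A p χs χs) := by
        push_cast
        linear_combination (c χs : ℂ) ^ 2 * h1 - (c χ : ℂ) * c ψ * h2 - (c χs : ℂ) * c ψ * h3
      rw [e1]
      refine InM_add (InM_mul ?_ (A_sub (hBIrr χ hχ) hψ hχs))
        (InM_mul ?_ (A_sub (hBIrr χs hχs) hχ hχs))
      · exact ((isIntegral_nat _).pow 2).mul (isIntegral_nat _)
      · exact ((isIntegral_nat _).mul (isIntegral_nat _)).mul (isIntegral_nat _)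
    have h1 := InM_int hp h𝔪 hp𝔪 key
    obtain ⟨t, ht⟩ := (hpP.dvd_or_dvd h1).resolve_left hn'Z
    have h2 : β * (c χs : ℤ) = 1 - e * p := by linear_combination hβ
    refine ⟨β ^ 2 * t + M χ ψ * (2 * e - e ^ 2 * p), ?_⟩
    have h3 : (β * (c χs : ℤ)) ^ 2 = (1 - e * p) ^ 2 := by rw [h2]
    linear_combination β ^ 2 * ht - M χ ψ * h3

end Pool.Agent.KBZ
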