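import Pool.Agent.KBL.Col

/-! Restriction of characters to a subgroup. -/

namespace Pool.Agent.KBZ

open Pool.Agent.KB Pool.Agent.KB.ContrAux

/-- The multiplicities are natural numbers. HINT: `χ = ρ.character`, `ψ = σ.character`; the
restriction of `ρ` to `C` is `ρ.comp C.subtype`. `Representation.card_inv_mul_sum_char_mul_char_eq_finrank`
(or `card_inv_mul_sum_char_eq_finrank` for a tensor product with the dual). -/
theorem Res_mult {G : Type} [Group G] [Fintype G] (C : Subgroup G) [Fintype C] (χ : G → ℂ)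
    (hχ : χ ∈ Irr G) (ψ : C → ℂ) (hψ : ψ ∈ Irr C) :
    ∃ n : ℕ, (n : ℂ) * (Nat.card C : ℂ) = ∑ y : C, χ (y : G) * ψ y⁻¹ := by
  obtain ⟨a, ρ, _, rfl⟩ := hχ
  obtain ⟨b, σ, _, rfl⟩ := hψ
  have hNC : (Nat.card C : ℂ) ≠ 0 := by
    have : 0 < Nat.card C := Nat.card_pos
    exact_mod_cast this.ne'
  have : Invertible (Nat.card C : ℂ) := invertibleOfNonzero hNC
  let ρ' : Representation ℂ C (Fin a → ℂ) := MonoidHom.comp ρ C.subtype
  have h := Representation.card_inv_mul_sum_char_mul_char_eq_finrank σ ρ'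
  refine ⟨Module.finrank ℂ (Representation.IntertwiningMap σ ρ'), ?_⟩
  rw [← h, mul_comm, mul_inv_cancel_left₀ hNC]
  rfl

/-- A class function of `C` is the sum of its components. HINT: column orthogonality for `C`. -/
theorem Res_expand {C : Type} [Group C] [Fintype C] (φ : C → ℂ)
    (hφ : ∀ y z : C, IsConj y z → φ y = φ z) {K : ℕ} (X : Fin K → C → ℂ)
    (h1 : ∀ g h : C, ¬ IsConj g h → ∑ i, X i g * X i h⁻¹ = 0)
    (h2 : ∀ g h : C, IsConj g h → ∑ i, X i g * X i h⁻¹ =
        (Nat.card C : ℂ) / (Nat.card {x : C // IsConj g x} : ℂ)) (y : C) :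
    (Nat.card C : ℂ) * φ y = ∑ i, (∑ z : C, φ z * X i z⁻¹) * X i y := by
  classical
  have e1 : ∑ i, (∑ z : C, φ z * X i z⁻¹) * X i y =
      ∑ z : C, φ z * ∑ i, X i y * X i z⁻¹ := by
    simp only [Finset.sum_mul, Finset.mul_sum]
    rw [Finset.sum_comm]
    exact Finset.sum_congr rfl fun z _ => Finset.sum_congr rfl fun i _ => by ring
  have hne : (Nat.card {x : C // IsConj y x} : ℂ) ≠ 0 := by
    have : Nonempty {x : C // IsConj y x} := ⟨⟨y, IsConj.refl y⟩⟩
    have : 0 < Nat.card {x : C // IsConj y x} := Nat.card_pos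
    exact_mod_cast this.ne'
  have e2 : ∀ z : C, φ z * ∑ i, X i y * X i z⁻¹ =
      if IsConj y z then φ y * ((Nat.card C : ℂ) / (Nat.card {x : C // IsConj y x} : ℂ)) else 0 := by
    intro z
    by_cases h : IsConj y z
    · rw [if_pos h, h2 y z h, hφ y z h]
    · rw [if_neg h, h1 y z h, mul_zero]
  rw [e1, Finset.sum_congr rfl fun z _ => e2 z, ← Finset.sum_filter, Finset.sum_const,
    nsmul_eq_mul]
  have e3 : ((Finset.univ.filter fun z : C => IsConj y z).card : ℂ) =
      (Nat.card {x : C // IsConj y x} : ℂ) := by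
    rw [Nat.card_eq_fintype_card, Fintype.card_subtype]
  rw [e3]
  field_simp

end Pool.Agent.KBZ
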