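import Pool.Agent.KBL.Col
import Pool.Agent.KB.Emb

/-! Bessel's inequality on the section of a `p`-element. -/

namespace Pool.Agent.KBZ

open Pool.Agent.KB Pool.Agent.KB.ContrAux

/-- If `u` has `p`-power order and centralizer `C`, `p ∤ j`, and `u^j y`, `u^j z` are conjugate by `k`
(`y, z ∈ C` of order prime to `p`) then `k ∈ C` and `k y k⁻¹ = z`. HINT: choose `N` with
`N ≡ 1` modulo `p^n` and `N ≡ 0` modulo `orderOf y * orderOf z` (Chinese remainder); the `N`-th power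
of `u^j y` is `u^(jN) = u^j`. So `k u^j k⁻¹ = u^j`, and `u` is a power of `u^j`. -/
theorem Bess_conj {G : Type} [Group G] [Fintype G] (p n : ℕ) (hp : p.Prime) (u : G)
    (hu : u ^ (p ^ n) = 1) (C : Subgroup G) (hC : ∀ g : G, g ∈ C ↔ g * u = u * g) (j : ℕ)
    (hj : ¬ p ∣ j) (y z : C) (hy : ¬ p ∣ orderOf y) (hz : ¬ p ∣ orderOf z) (k : G)
    (h : k * (u ^ j * (y : G)) * k⁻¹ = u ^ j * (z : G)) :
    k ∈ C ∧ k * (y : G) * k⁻¹ = (z : G) := by
  have hcop : Nat.Coprime (p ^ n) (orderOf y * orderOf z) := by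
    apply Nat.Coprime.pow_left
    rw [Nat.Prime.coprime_iff_not_dvd hp, hp.dvd_mul]
    rintro (h | h)
    · exact hy h
    · exact hz h
  obtain ⟨N, hN1, hN0⟩ := Nat.chineseRemainder hcop 1 0
  have huord : orderOf u ∣ p ^ n := orderOf_dvd_of_pow_eq_one hu
  have hcomm : ∀ w : C, Commute (u ^ j) (w : G) := by
    intro w
    have h1 : (w : G) * u = u * (w : G) := (hC w).1 w.2
    have h2 : Commute u (w : G) := h1.symm
    exact h2.pow_left j
  have hpw : ∀ w : C, orderOf w ∣ orderOf y * orderOf z → (u ^ j * (w : G)) ^ N = u ^ j := by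
    intro w hw
    rw [(hcomm w).mul_pow]
    have h1 : (w : G) ^ N = 1 := by
      have h2 : w ^ N = 1 := by
        rw [← orderOf_dvd_iff_pow_eq_one]
        exact hw.trans ((Nat.modEq_zero_iff_dvd).1 hN0)
      have := congrArg (fun x : C => (x : G)) h2
      simpa using this
    rw [h1, mul_one, ← pow_mul]
    rw [pow_eq_pow_iff_modEq]
    have h3 : j * N ≡ j * 1 [MOD p ^ n] := hN1.mul_left j
    rw [mul_one] at h3
    exact h3.of_dvd huord
  have h1 : k * u ^ j * k⁻¹ = u ^ j := by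
    have h2 := congrArg (fun x => x ^ N) h
    simp only [conj_pow] at h2
    rwa [hpw y (dvd_mul_right _ _), hpw z (dvd_mul_left _ _)] at h2
  have hcop2 : Nat.Coprime j (orderOf u) := by
    apply Nat.Coprime.coprime_dvd_right huord
    exact Nat.Coprime.pow_right _ ((Nat.Prime.coprime_iff_not_dvd hp).2 hj).symm
  obtain ⟨m, hm⟩ := exists_pow_eq_self_of_coprime hcop2
  have h2 : k * u * k⁻¹ = u := by
    have h3 := congrArg (fun x => x ^ m) h1
    simp only [conj_pow] at h3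
    rwa [hm] at h3
  have hk : k * u = u * k := by
    rw [mul_inv_eq_iff_eq_mul] at h2
    exact h2
  refine ⟨(hC k).2 hk, ?_⟩
  have h4 : k * (u ^ j * (y : G)) * k⁻¹ = (k * u ^ j * k⁻¹) * (k * (y : G) * k⁻¹) := by group
  rw [h4, h1] at h
  exact mul_left_cancel h

open Classical in
/-- the class function of the section -/
noncomputable def Bess_th {G : Type} [Group G] [Fintype G] (p : ℕ) (u : G)
    (C : Subgroup G) [Fintype C] (j : ℕ) (s : C → ℂ) (g : G) : ℂ :=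
  ∑ h : G, ∑ y : C with ¬ p ∣ orderOf y, if h * (u ^ j * (y : G)) * h⁻¹ = g then s y else 0

open Classical in
theorem Bess_pair {G : Type} [Group G] [Fintype G] (p : ℕ) (u : G)
    (C : Subgroup G) [Fintype C] (j : ℕ) (s : C → ℂ) (f : G → ℂ) :
    ∑ g, f g * (starRingEnd ℂ) (Bess_th p u C j s g) =
      ∑ h : G, ∑ y : C with ¬ p ∣ orderOf y, f (h * (u ^ j * (y : G)) * h⁻¹) *
        (starRingEnd ℂ) (s y) := by
  unfold Bess_th
  simp only [map_sum, Finset.mul_sum]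
  rw [Finset.sum_comm]
  refine Finset.sum_congr rfl fun h _ => ?_
  rw [Finset.sum_comm]
  refine Finset.sum_congr rfl fun y _ => ?_
  rw [Finset.sum_eq_single (h * (u ^ j * (y : G)) * h⁻¹)]
  · simp
  · intro b _ hb
    rw [if_neg (Ne.symm hb)]
    simp
  · intro h; exact absurd (Finset.mem_univ _) h

open Classical in
theorem Bess_val {G : Type} [Group G] [Fintype G] (p n : ℕ) (hp : p.Prime) (u : G)
    (hu : u ^ (p ^ n) = 1) (C : Subgroup G) [Fintype C] (hC : ∀ g : G, g ∈ C ↔ g * u = u * g)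
    (j : ℕ) (hj : ¬ p ∣ j) (s : C → ℂ) (hs : ∀ y z : C, IsConj y z → s y = s z) (h : G) (y : C)
    (hy : ¬ p ∣ orderOf y) :
    Bess_th p u C j s (h * (u ^ j * (y : G)) * h⁻¹) = (Nat.card C : ℂ) * s y := by
  unfold Bess_th
  have hinner : ∀ h' : G, (∑ z : C with ¬ p ∣ orderOf z,
      if h' * (u ^ j * (z : G)) * h'⁻¹ = h * (u ^ j * (y : G)) * h⁻¹ then s z else 0) =
      if h'⁻¹ * h ∈ C then s y else 0 := by
    intro h'
    by_cases hk : h'⁻¹ * h ∈ C
    · rw [if_pos hk]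
      let k : C := ⟨h'⁻¹ * h, hk⟩
      have hz0 : orderOf (k * y * k⁻¹) = orderOf y := by
        exact orderOf_injective (MulAut.conj k).toMonoidHom (MulAut.conj k).injective y
      have hcomm : (h'⁻¹ * h) * u ^ j = u ^ j * (h'⁻¹ * h) := by
        have h1 : Commute (h'⁻¹ * h) u := (hC _).1 hk
        exact h1.pow_right j
      have hkey : h' * (u ^ j * ((k * y * k⁻¹ : C) : G)) * h'⁻¹ =
          h * (u ^ j * (y : G)) * h⁻¹ := by
        show h' * (u ^ j * ((h'⁻¹ * h) * (y : G) * (h'⁻¹ * h)⁻¹)) * h'⁻¹ = _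
        calc h' * (u ^ j * ((h'⁻¹ * h) * (y : G) * (h'⁻¹ * h)⁻¹)) * h'⁻¹
            = h' * ((u ^ j * (h'⁻¹ * h)) * (y : G) * (h'⁻¹ * h)⁻¹) * h'⁻¹ := by group
          _ = h' * (((h'⁻¹ * h) * u ^ j) * (y : G) * (h'⁻¹ * h)⁻¹) * h'⁻¹ := by rw [hcomm]
          _ = h * (u ^ j * (y : G)) * h⁻¹ := by group
      rw [Finset.sum_eq_single (k * y * k⁻¹)]
      · rw [if_pos hkey]
        exact (hs y (k * y * k⁻¹) (isConj_iff.2 ⟨k, rfl⟩)).symm
      · intro z _ hz
        rw [if_neg]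
        intro hcon
        apply hz
        rw [← hkey] at hcon
        have h2 := mul_left_cancel (mul_right_cancel hcon)
        exact Subtype.ext (mul_left_cancel h2)
      · intro hnot
        exfalso
        apply hnot
        rw [Finset.mem_filter]
        exact ⟨Finset.mem_univ _, by rw [hz0]; exact hy⟩
    · rw [if_neg hk]
      refine Finset.sum_eq_zero fun z hz => ?_
      rw [if_neg]
      intro hcon
      apply hk
      rw [Finset.mem_filter] at hz
      refine (Bess_conj p n hp u hu C hC j hj y z hy hz.2 (h'⁻¹ * h) ?_).1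
      calc h'⁻¹ * h * (u ^ j * (y : G)) * (h'⁻¹ * h)⁻¹
          = h'⁻¹ * (h * (u ^ j * (y : G)) * h⁻¹) * h' := by group
        _ = h'⁻¹ * (h' * (u ^ j * (z : G)) * h'⁻¹) * h' := by rw [hcon]
        _ = u ^ j * (z : G) := by group
  rw [Finset.sum_congr rfl (fun h' _ => hinner h'), ← Finset.sum_filter, Finset.sum_const,
    nsmul_eq_mul]
  congr 2
  rw [Nat.card_eq_fintype_card, ← Finset.card_univ (α := C)]
  refine Finset.card_bij' (fun h' hh => (⟨h'⁻¹ * h, by simpa using hh⟩ : C))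
    (fun c _ => h * (c : G)⁻¹) ?_ ?_ ?_ ?_
  · intro h' _; exact Finset.mem_univ _
  · intro c _
    simp
  · intro h' _
    simp
  · intro c _
    apply Subtype.ext
    simp

open Classical in
/-- HINT: `Θ g = ∑_{h ∈ G} ∑_{y ∈ C p-regular} [h (u^j y) h⁻¹ = g] s y`.
`∑_g χ g * conj (Θ g) = |G| ∑_y χ (u^j y) conj (s y)` (class functions). `∑_g |Θ g|^2 =
∑_{h, h', y, z} [h u^j y h⁻¹ = h' u^j z h'⁻¹] s y * conj (s z) = |G| ∑_{k ∈ C} ∑_y |s y|^2
= |G| |C| ∑_y |s y|^2` by `Bess_conj` (`k = h'⁻¹ h`, `z = k y k⁻¹`, `s z = s y`). Bessel's inequality for the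
orthonormal vectors `χ i / sqrt |G|` (`EmbAux.orthonormal_irr` in `Pool/Agent/KB/Emb.lean`,
`Orthonormal.sum_inner_products_le`): `∑_i |∑_g χ_i g conj (Θ g)|^2 ≤ |G| ∑_g |Θ g|^2`. -/
theorem Bess_main {G : Type} [Group G] [Fintype G] (p n : ℕ) (hp : p.Prime) (u : G)
    (hu : u ^ (p ^ n) = 1) (C : Subgroup G) [Fintype C] (hC : ∀ g : G, g ∈ C ↔ g * u = u * g)
    (j : ℕ) (hj : ¬ p ∣ j) {k : ℕ} (χ : Fin k → G → ℂ) (hinj : Function.Injective χ)
    (hχ : ∀ i, χ i ∈ Irr G) (s : C → ℂ) (hs : ∀ y z : C, IsConj y z → s y = s z) :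
    ∑ i, ‖∑ y : C with ¬ p ∣ orderOf y, χ i (u ^ j * (y : G)) * (starRingEnd ℂ) (s y)‖ ^ 2 ≤
      (Nat.card C : ℝ) * ∑ y : C with ¬ p ∣ orderOf y, ‖s y‖ ^ 2 := by
  have hN : (0 : ℝ) < (Nat.card G : ℝ) := by exact_mod_cast Nat.card_pos
  have hsq : Real.sqrt (Nat.card G) ^ 2 = (Nat.card G : ℝ) := Real.sq_sqrt hN.le
  set Θ := Bess_th p u C j s with hΘ
  -- pairing with characters
  have h1 : ∀ i, ∑ g, χ i g * (starRingEnd ℂ) (Θ g) = (Nat.card G : ℂ) *
      ∑ y : C with ¬ p ∣ orderOf y, χ i (u ^ j * (y : G)) * (starRingEnd ℂ) (s y) := by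
    intro i
    rw [hΘ, Bess_pair]
    have : ∀ h : G, (∑ y : C with ¬ p ∣ orderOf y, χ i (h * (u ^ j * (y : G)) * h⁻¹) *
        (starRingEnd ℂ) (s y)) = ∑ y : C with ¬ p ∣ orderOf y, χ i (u ^ j * (y : G)) *
        (starRingEnd ℂ) (s y) := by
      intro h
      refine Finset.sum_congr rfl fun y _ => ?_
      rw [irr_conj (hχ i) (g := u ^ j * (y : G)) (h := h * (u ^ j * (y : G)) * h⁻¹)
        (isConj_iff.2 ⟨h, rfl⟩)]
    rw [Finset.sum_congr rfl (fun h _ => this h), Finset.sum_const, nsmul_eq_mul,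
      Nat.card_eq_fintype_card, Finset.card_univ]
  -- the norm
  have h2 : ∑ g, ‖Θ g‖ ^ 2 = (Nat.card G : ℝ) * ((Nat.card C : ℝ) *
      ∑ y : C with ¬ p ∣ orderOf y, ‖s y‖ ^ 2) := by
    have h3 : ((∑ g, ‖Θ g‖ ^ 2 : ℝ) : ℂ) = (((Nat.card G : ℝ) * ((Nat.card C : ℝ) *
      ∑ y : C with ¬ p ∣ orderOf y, ‖s y‖ ^ 2) : ℝ) : ℂ) := by
      push_cast
      have h4 : ∀ z : ℂ, ((‖z‖ : ℂ)) ^ 2 = z * (starRingEnd ℂ) z := by
        intro z
        rw [Complex.mul_conj, Complex.normSq_eq_norm_sq]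
        push_cast; rfl
      simp only [h4]
      have h5 : ∑ g, Θ g * (starRingEnd ℂ) (Θ g) = ∑ h : G, ∑ y : C with ¬ p ∣ orderOf y,
          ((Nat.card C : ℂ) * s y) * (starRingEnd ℂ) (s y) := by
        rw [hΘ, Bess_pair p u C j s (Bess_th p u C j s)]
        refine Finset.sum_congr rfl fun h _ => Finset.sum_congr rfl fun y hy => ?_
        rw [Finset.mem_filter] at hy
        rw [Bess_val p n hp u hu C hC j hj s hs h y hy.2]
      have h8 : ∑ y : C with ¬ p ∣ orderOf y,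
          ((Nat.card C : ℂ) * s y) * (starRingEnd ℂ) (s y) =
          (Nat.card C : ℂ) * ∑ y : C with ¬ p ∣ orderOf y, s y * (starRingEnd ℂ) (s y) := by
        rw [Finset.mul_sum]
        refine Finset.sum_congr rfl fun y _ => ?_
        ring
      rw [h5, Finset.sum_const, nsmul_eq_mul, h8, Finset.card_univ, ← Nat.card_eq_fintype_card]
    exact_mod_cast h3
  -- Bessel
  have hB := Orthonormal.sum_inner_products_le (WithLp.toLp 2 Θ : EuclideanSpace ℂ G)
    (EmbAux.orthonormal_irr χ hinj hχ) (s := Finset.univ)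
  have h6 : ∀ i, ‖inner ℂ (WithLp.toLp 2 (fun g => (χ i g) / (Real.sqrt (Nat.card G) : ℂ)) :
      EuclideanSpace ℂ G) (WithLp.toLp 2 Θ : EuclideanSpace ℂ G)‖ ^ 2 =
      (Nat.card G : ℝ) * ‖∑ y : C with ¬ p ∣ orderOf y, χ i (u ^ j * (y : G)) *
        (starRingEnd ℂ) (s y)‖ ^ 2 := by
    intro i
    have h7 : inner ℂ (WithLp.toLp 2 (fun g => (χ i g) / (Real.sqrt (Nat.card G) : ℂ)) :
        EuclideanSpace ℂ G) (WithLp.toLp 2 Θ : EuclideanSpace ℂ G) =
        (starRingEnd ℂ) (∑ g, χ i g * (starRingEnd ℂ) (Θ g)) / (Real.sqrt (Nat.card G) : ℂ) := by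
      rw [PiLp.inner_apply, map_sum, Finset.sum_div]
      refine Finset.sum_congr rfl fun g _ => ?_
      rw [RCLike.inner_apply, map_div₀, Complex.conj_ofReal, map_mul, Complex.conj_conj]
      ring
    rw [h7, h1, norm_div, Complex.norm_conj, norm_mul, div_pow, mul_pow, Complex.norm_real,
      Real.norm_eq_abs, sq_abs, hsq, Complex.norm_natCast]
    field_simp
  rw [Finset.sum_congr rfl (fun i _ => h6 i), ← Finset.mul_sum, EuclideanSpace.norm_sq_eq] at hB
  replace hB : _ ≤ ∑ g : G, ‖Θ g‖ ^ 2 := hB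
  rw [h2] at hB
  exact le_of_mul_le_mul_left hB hN

end Pool.Agent.KBZ
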