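import Pool.Agent.KBZ.Bess

/-! Central characters at the classes in the section of `u`. -/

namespace Pool.Agent.KBZ

open Pool.Agent.KB Pool.Agent.KB.ContrAux

theorem SecW_orb {G : Type} [Group G] [Finite G] (x : G) :
    Nat.card {g : G // IsConj x g} * Nat.card {k : G // k * x * k⁻¹ = x} = Nat.card G := by
  have h1 := Nat.card_congr (MulAction.orbitProdStabilizerEquivGroup (ConjAct G) x)
  rw [Nat.card_prod] at h1
  have h2 : Nat.card (MulAction.orbit (ConjAct G) x) = Nat.card {g : G // IsConj x g} := by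
    refine Nat.card_congr (Equiv.subtypeEquivRight fun g => ?_)
    rw [ConjAct.mem_orbit_conjAct]
    exact isConj_comm
  have h3 : Nat.card (MulAction.stabilizer (ConjAct G) x) = Nat.card {k : G // k * x * k⁻¹ = x} := by
    refine Nat.card_congr (ConjAct.ofConjAct.toEquiv.subtypeEquiv fun k => ?_)
    rw [MulAction.mem_stabilizer_iff, ConjAct.smul_def]
    rfl
  have h4 : Nat.card (ConjAct G) = Nat.card G := Nat.card_congr ConjAct.ofConjAct.toEquiv
  rw [h2, h3, h4] at h1
  exact h1

/-- HINT: the centralizer of `u y` in `G` is the centralizer of `y` in `C` (`Bess_conj` with `z = y`,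
`j = 1`); orbit-stabilizer for conjugation in `G` and in `C`. (Or count the pairs `(g, k)`.) -/
theorem SecW_card {G : Type} [Group G] [Fintype G] (p n : ℕ) (hp : p.Prime) (u : G)
    (hu : u ^ (p ^ n) = 1) (C : Subgroup G) [Fintype C] (hC : ∀ g : G, g ∈ C ↔ g * u = u * g)
    (y : C) (hy : ¬ p ∣ orderOf y) :
    Nat.card {g : G // IsConj (u * (y : G)) g} * Nat.card C =
      Nat.card G * Nat.card {z : C // IsConj y z} := by
  have h1 := SecW_orb (u * (y : G))
  have h2 := SecW_orb y
  have h3 : Nat.card {k : G // k * (u * (y : G)) * k⁻¹ = u * (y : G)} =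
      Nat.card {k : C // k * y * k⁻¹ = y} := by
    have hj : ¬ p ∣ 1 := by
      intro h
      have := Nat.dvd_one.1 h
      exact hp.one_lt.ne' this
    refine Nat.card_congr ⟨fun k => ⟨⟨k.1, ?_⟩, ?_⟩, fun c => ⟨c.1, ?_⟩, ?_, ?_⟩
    · refine (Bess_conj p n hp u hu C hC 1 hj y y hy hy k.1 ?_).1
      rw [pow_one]; exact k.2
    · apply Subtype.ext
      have := (Bess_conj p n hp u hu C hC 1 hj y y hy hy k.1 (by rw [pow_one]; exact k.2)).2
      exact this
    · have hc : (c.1 : G) * u = u * (c.1 : G) := (hC _).1 c.1.2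
      have hc2 : (c.1 : G) * (y : G) * (c.1 : G)⁻¹ = (y : G) := by
        have := congrArg (fun x : C => (x : G)) c.2
        simpa using this
      calc (c.1 : G) * (u * (y : G)) * (c.1 : G)⁻¹
          = ((c.1 : G) * u) * (y : G) * (c.1 : G)⁻¹ := by group
        _ = (u * (c.1 : G)) * (y : G) * (c.1 : G)⁻¹ := by rw [hc]
        _ = u * ((c.1 : G) * (y : G) * (c.1 : G)⁻¹) := by group
        _ = u * (y : G) := by rw [hc2]
    · intro k; rfl
    · intro c; rfl
  rw [h3] at h1
  rw [← h1, ← h2]
  ring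

open Classical in
/-- the value of the central character at the section, paired with `ψ` -/
noncomputable def SecW_W {G : Type} [Group G] [Fintype G] (p : ℕ) (u : G) (C : Subgroup G)
    [Fintype C] (ψ : C → ℂ) (χ : G → ℂ) : ℂ :=
  ∑ K : ConjClasses C, if p ∣ orderOf (Quotient.out K) then 0 else
    ψ (Quotient.out K)⁻¹ * omega χ (u * ((Quotient.out K : C) : G))

open Classical in
/-- HINT: it is the sum over the classes of `p`-regular elements `y` of `C` of
`ψ y⁻¹ * omega χ (u y)` (as in `ContrAux.A`, sum over `ConjClasses C`, `Quotient.out`), by `SecW_card`;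
`irr_integral`, `irr_omega`; for `χ, χ'` in the block the difference is
`∑ ψ y⁻¹ * (omega χ (u y) - omega χ' (u y))`. -/
theorem SecW_main {G : Type} [Group G] [Fintype G] (p n : ℕ) (hp : p.Prime) (𝔪 : Ideal AInt)
    (u : G) (hu : u ^ (p ^ n) = 1) (C : Subgroup G) [Fintype C]
    (hC : ∀ g : G, g ∈ C ↔ g * u = u * g) (ψ : C → ℂ) (hψ : ψ ∈ Irr C) :
    ∃ W : (G → ℂ) → ℂ,
      (∀ χ ∈ Irr G, IsIntegral ℤ (W χ)) ∧
      (∀ χ₀ : G → ℂ, ∀ χ ∈ block 𝔪 χ₀, ∀ χ' ∈ block 𝔪 χ₀, InM 𝔪 (W χ - W χ')) ∧
      (∀ χ ∈ Irr G, (Nat.card C : ℂ) * (χ 1 * W χ) = (Nat.card G : ℂ) *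
        ∑ y : C with ¬ p ∣ orderOf y, χ (u * (y : G)) * ψ y⁻¹) := by
  refine ⟨SecW_W p u C ψ, ?_, ?_, ?_⟩
  · intro χ hχ
    unfold SecW_W
    refine IsIntegral.sum _ fun K _ => ?_
    split_ifs
    · exact isIntegral_zero
    · exact (irr_integral hψ _).mul (irr_omega hχ _)
  · intro χ₀ χ hχ χ' hχ'
    unfold SecW_W
    rw [← Finset.sum_sub_distrib]
    refine InM_sum _ _ fun K _ => ?_
    split_ifs
    · simpa using InM_zero 𝔪
    · rw [← mul_sub]
      refine InM_mul (irr_integral hψ _) ?_
      set w := u * ((Quotient.out K : C) : G)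
      have h1 : InM 𝔪 (omega χ₀ w - omega χ w) := hχ.2 _
      have h2 : InM 𝔪 (omega χ₀ w - omega χ' w) := hχ'.2 _
      have := InM_sub h2 h1
      have e : omega χ w - omega χ' w = omega χ₀ w - omega χ' w - (omega χ₀ w - omega χ w) := by
        ring
      rw [e]
      exact this
  · intro χ hχ
    obtain ⟨m, hm, hm1⟩ := irr_deg hχ
    have hχ1 : χ 1 ≠ 0 := by
      rw [hm1]
      exact_mod_cast hm.ne'
    unfold SecW_W
    rw [Finset.mul_sum, Finset.mul_sum,
      ← Finset.sum_fiberwise (Finset.univ.filter fun y : C => ¬ p ∣ orderOf y)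
        (fun y => (ConjClasses.mk y : ConjClasses C)), Finset.mul_sum]
    refine Finset.sum_congr rfl fun K _ => ?_
    set k := Quotient.out K with hk
    have hmk : ConjClasses.mk k = K := Quotient.out_eq K
    have hiff : ∀ g : C, ConjClasses.mk g = K ↔ IsConj k g := fun g => by
      rw [← hmk, ConjClasses.mk_eq_mk_iff_isConj]
      exact ⟨fun h => h.symm, fun h => h.symm⟩
    split_ifs with hpk
    · rw [mul_zero, mul_zero]
      symm
      rw [mul_eq_zero]
      right
      refine Finset.sum_eq_zero fun g hg => ?_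
      rw [Finset.mem_filter, Finset.mem_filter] at hg
      exact absurd (orderOf_conj ((hiff g).mp hg.2) ▸ hpk) hg.1.2
    · have hterm : ∀ g ∈ (Finset.univ.filter fun g : C => ¬ p ∣ orderOf g).filter
          (fun g => (ConjClasses.mk g : ConjClasses C) = K),
          χ (u * (g : G)) * ψ g⁻¹ = χ (u * (k : G)) * ψ k⁻¹ := by
        intro g hg
        rw [Finset.mem_filter] at hg
        have hc := (hiff g).mp hg.2
        obtain ⟨c, hc'⟩ := isConj_iff.mp hc
        have hc2 : IsConj (u * (k : G)) (u * (g : G)) := by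
          refine isConj_iff.2 ⟨c, ?_⟩
          have hcu : (c : G) * u = u * (c : G) := (hC _).1 c.2
          rw [← hc']
          show (c : G) * (u * (k : G)) * (c : G)⁻¹ = u * ((c : G) * (k : G) * (c : G)⁻¹)
          calc (c : G) * (u * (k : G)) * (c : G)⁻¹
              = ((c : G) * u) * (k : G) * (c : G)⁻¹ := by group
            _ = (u * (c : G)) * (k : G) * (c : G)⁻¹ := by rw [hcu]
            _ = u * ((c : G) * (k : G) * (c : G)⁻¹) := by group
        rw [irr_conj hχ hc2, irr_conj hψ (isConj_inv hc)]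
      rw [Finset.sum_congr rfl hterm, Finset.sum_const, nsmul_eq_mul]
      have hcard : ((Finset.univ.filter fun g : C => ¬ p ∣ orderOf g).filter
          (fun g => (ConjClasses.mk g : ConjClasses C) = K)).card =
          Nat.card {z : C // IsConj k z} := by
        rw [Nat.card_eq_fintype_card, Fintype.card_subtype]
        congr 1
        ext g
        rw [Finset.mem_filter, Finset.mem_filter, Finset.mem_filter]
        constructor
        · rintro ⟨-, h⟩
          exact ⟨Finset.mem_univ _, (hiff g).1 h⟩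
        · rintro ⟨-, h⟩
          exact ⟨⟨Finset.mem_univ _, (orderOf_conj h) ▸ hpk⟩, (hiff g).2 h⟩
      rw [hcard]
      have hS := SecW_card p n hp u hu C hC k hpk
      have hS' : (Nat.card {g : G // IsConj (u * (k : G)) g} : ℂ) * (Nat.card C : ℂ) =
          (Nat.card G : ℂ) * (Nat.card {z : C // IsConj k z} : ℂ) := by exact_mod_cast hS
      unfold omega
      field_simp
      linear_combination (χ (u * (k : G)) * ψ k⁻¹) * hS'

end Pool.Agent.KBZ
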