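import Pool.Agent.KB.Defs

/-! Blocks of subgroups: Brauer's induced block. -/

namespace Pool.Agent.KBZ

open Pool.Agent.KB

/-- `ζ` is a character of the subgroup `H`, `χ` a character of `G`. The block of `χ` is the block of
`G` induced by the block of `ζ` (Brauer's `b^G`): the value of the central character of `χ` at the
class sum of `g` is congruent, modulo the maximal ideal `𝔪` of the ring of algebraic integers, to
the value of the central character of `ζ` at the sum of those conjugates of `g` which lie in `H`. -/
def Induces {G : Type} [Group G] (𝔪 : Ideal AInt) (H : Subgroup G) (ζ : H → ℂ) (χ : G → ℂ) :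
    Prop :=
  ∀ g : G, ∃ c : AInt, c ∈ 𝔪 ∧
    (c : ℂ) = omega χ g - (∑ᶠ h : {h : H // IsConj g (h : G)}, ζ h) / ζ 1

end Pool.Agent.KBZ
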